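import Pool.Agent.H13.TA.Bas

/-!
# Theorem A* (MP_1bad5e_ag), definitions for the curves of type `C_ab`

* `Cab a b f` : `f ∈ R[t][x]` is monic of degree `a` in `x`, its constant term has degree `b` in `t`, all monomials
  `t ^ j x ^ i` of `f` satisfy `a j + b i ≤ a b`, and `a`, `b` are positive and coprime;
* `WL a b n g` : all monomials `t ^ j x ^ i` of `g` satisfy `a j + b i ≤ n`;
* `psi a b κ` : the homomorphism `t ↦ X ^ a`, `x ↦ κ X ^ b` from `F[t][x]` to `k[X]`, `k` an algebraic closure of `F`;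
* `IsW a b f W` : `W` is a weight function on `O = F[t][x]/(f)`;
* `IsZ f V h` : `V` is the numerator of the zeta function (with class number `h`).
-/

set_option autoImplicit false

open Polynomial

noncomputable section

namespace H13.CB

/-- the form of `f` -/
structure Cab {R : Type} [CommRing R] (a b : ℕ) (f : R[X][X]) : Prop where
  ha : a ≠ 0
  hb : b ≠ 0
  cop : a.Coprime b
  monic : f.Monic
  deg : f.natDegree = a
  deg0 : (f.coeff 0).natDegree = b
  wt : ∀ i, f.coeff i ≠ 0 → a * (f.coeff i).natDegree + b * i ≤ a * b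

/-- all monomials of `g` have weight at most `n` -/
def WL {F : Type} [Field F] (a b n : ℕ) (g : F[X][X]) : Prop :=
  ∀ i, g.coeff i ≠ 0 → a * (g.coeff i).natDegree + b * i ≤ n

/-- the homomorphism `t ↦ X ^ a`, `x ↦ κ X ^ b` -/
def psi {F : Type} [Field F] (a b : ℕ) (κ : AlgebraicClosure F) :
    F[X][X] →+* (AlgebraicClosure F)[X] :=
  eval₂RingHom (eval₂RingHom (C.comp (algebraMap F (AlgebraicClosure F))) (X ^ a)) (C κ * X ^ b)

/-- a weight function on `O` -/
structure IsW {F : Type} [Field F] (a b : ℕ) (f : F[X][X]) (W : AdjoinRoot f → ℕ) : Prop where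
  mul : ∀ α β, α ≠ 0 → β ≠ 0 → α * β ≠ 0 ∧ W (α * β) = W α + W β
  add : ∀ α β, W (α + β) ≤ max (W α) (W β)
  base : ∀ c : F[X], W (algebraMap F[X] (AdjoinRoot f) c) = a * c.natDegree
  root : W (AdjoinRoot.root f) = b
  zero : ∀ α, W α = 0 → ∃ c : F, α = algebraMap F (AdjoinRoot f) c
  coef : ∀ g : F[X][X], g.natDegree < a → ∀ i, g.coeff i ≠ 0 →
    a * (g.coeff i).natDegree + b * i ≤ W (AdjoinRoot.mk f g)

/-- the numerator `V` of the zeta function, one rational place at infinity -/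
structure IsZ {F : Type} [Field F] (f : F[X][X]) (V : ℤ[X]) (h : ℕ) : Prop where
  monic : V.Monic
  zero : V.eval 0 ≠ 0
  one : V.eval 1 = h
  pos : h ≠ 0
  real : ∀ x : ℝ, (Nat.card F : ℝ) ≤ x → aeval x V ≠ 0
  npt : ∀ r : ℕ, r ≠ 0 → (H13.TA.npt f r : ℂ) =
    (Nat.card F : ℂ) ^ r - ((V.aroots ℂ).map fun ρ => ρ ^ r).sum

end H13.CB
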