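import Pool.Agent.H13.CB.Defs

/-!
# CB-DET: the degree of the norm is at most the weight

`α = 0`: `dg f 0 = 0` (`H13.TA.dg_zero`). Let `α ≠ 0`. The norm is the determinant of the matrix `m` of the multiplication by
`α` in the basis `1, x, .., x ^ (a - 1)` (`AdjoinRoot.powerBasis' h.monic`, `Algebra.norm_eq_matrix_det`,
`Algebra.leftMulMatrix_apply`); `α x ^ j = ∑_i m_(i j) x ^ i` is `mk f` of the polynomial `∑_i m_(i j) X ^ i` of degree
`< a`. By `coef` for `α x ^ j` and `mul`, `root`: if `m_(i j) ≠ 0`, then `a natDegree m_(i j) + b i ≤ W α + b j`. For a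
permutation `π` with all `m_(π j, j) ≠ 0`: `a natDegree (∏_j m_(π j, j)) ≤ ∑_j (W α + b j - b π(j))`, i.e.
`a natDegree (∏) + b ∑ π(j) ≤ a W α + b ∑ j`, so `natDegree (∏) ≤ W α`. Sum over `π` (`Matrix.det_apply`,
`natDegree_sum_le_of_forall_le`).
-/

set_option autoImplicit false

open Polynomial

noncomputable section

namespace H13.CB

variable {F : Type} [Field F] {a b : ℕ} {f : F[X][X]}

private theorem root_pow (h : Cab a b f) {W : AdjoinRoot f → ℕ} (hW : IsW a b f W) (j : ℕ) :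
    (AdjoinRoot.root f) ^ j ≠ 0 ∧ W ((AdjoinRoot.root f) ^ j) = b * j := by
  have h0 : W 0 = 0 := by
    have := hW.base 0
    rwa [map_zero, natDegree_zero, mul_zero] at this
  have h1 : AdjoinRoot.root f ≠ 0 := by
    intro h2
    have h3 := hW.root
    rw [h2, h0] at h3
    exact h.hb h3.symm
  induction j with
  | zero =>
    have : Nontrivial (AdjoinRoot f) := ⟨⟨_, 0, h1⟩⟩
    refine ⟨by rw [pow_zero]; exact one_ne_zero, ?_⟩
    have := hW.base 1
    rwa [map_one, natDegree_one, mul_zero] at this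
  | succ j ih =>
    obtain ⟨h4, h5⟩ := hW.mul _ _ ih.1 h1
    rw [pow_succ]
    refine ⟨h4, ?_⟩
    rw [h5, ih.2, hW.root]
    ring

private theorem entry (h : Cab a b f) {W : AdjoinRoot f → ℕ} (hW : IsW a b f W)
    {α : AdjoinRoot f} (hα : α ≠ 0) (i j : Fin (AdjoinRoot.powerBasis' h.monic).dim)
    (hm : Algebra.leftMulMatrix (AdjoinRoot.powerBasis' h.monic).basis α i j ≠ 0) :
    a * (Algebra.leftMulMatrix (AdjoinRoot.powerBasis' h.monic).basis α i j).natDegree + b * i ≤
      W α + b * j := by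
  have e1 : Algebra.leftMulMatrix (AdjoinRoot.powerBasis' h.monic).basis α i j =
      (AdjoinRoot.modByMonicHom h.monic (α * (AdjoinRoot.root f) ^ (j : ℕ))).coeff i := by
    rw [Algebra.leftMulMatrix_eq_repr_mul, PowerBasis.basis_eq_pow]
    rfl
  rw [e1] at hm ⊢
  obtain ⟨h1, h2⟩ := root_pow h hW (j : ℕ)
  obtain ⟨h3, h4⟩ := hW.mul _ _ hα h1
  rw [h2] at h4
  have hnat : (AdjoinRoot.modByMonicHom h.monic (α * (AdjoinRoot.root f) ^ (j : ℕ))).natDegree < a := by
    obtain ⟨g, hg⟩ := AdjoinRoot.mk_surjective (α * (AdjoinRoot.root f) ^ (j : ℕ))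
    rw [← hg, AdjoinRoot.modByMonicHom_mk, ← h.deg]
    refine natDegree_modByMonic_lt _ h.monic fun h5 => h.ha ?_
    rw [← h.deg, h5, natDegree_one]
  have h6 := hW.coef _ hnat i hm
  rw [AdjoinRoot.mk_leftInverse h.monic, h4] at h6
  exact h6

private theorem det_gen {n w : ℕ} (ha : 0 < a) (hn : n = a) (M : Matrix (Fin n) (Fin n) F[X])
    (hM : ∀ i j, M i j ≠ 0 → a * (M i j).natDegree + b * i ≤ w + b * j) :
    M.det.natDegree ≤ w := by
  classical
  subst hn
  rw [Matrix.det_apply]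
  refine natDegree_sum_le_of_forall_le _ _ fun π _ => ?_
  have hsmul : ∀ (u : ℤˣ) (g : F[X]), (u • g).natDegree ≤ g.natDegree := fun u g => by
    rcases Int.units_eq_one_or u with rfl | rfl
    · rw [one_smul]
    · rw [Units.neg_smul, one_smul, natDegree_neg]
  refine (hsmul _ _).trans ?_
  by_cases h0 : ∀ i, M (π i) i ≠ 0
  · refine (natDegree_prod_le _ _).trans ?_
    have h1 : ∑ i, (n * (M (π i) i).natDegree + b * (π i : ℕ)) ≤
        ∑ i : Fin n, (w + b * (i : ℕ)) := Finset.sum_le_sum fun i _ => hM _ _ (h0 i)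
    rw [Finset.sum_add_distrib, Finset.sum_add_distrib, ← Finset.mul_sum, ← Finset.mul_sum,
      ← Finset.mul_sum, Equiv.sum_comp π (fun i => (i : ℕ)), Finset.sum_const, Finset.card_univ,
      Fintype.card_fin, smul_eq_mul] at h1
    exact Nat.le_of_mul_le_mul_left (Nat.le_of_add_le_add_right h1) ha
  · push Not at h0
    obtain ⟨i, hi⟩ := h0
    have h1 : ∏ i, M (π i) i = 0 := Finset.prod_eq_zero (Finset.mem_univ i) hi
    refine le_of_eq_of_le (congrArg natDegree h1) ?_
    rw [natDegree_zero]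
    exact Nat.zero_le _

theorem det_le (h : Cab a b f) {W : AdjoinRoot f → ℕ} (hW : IsW a b f W) (α : AdjoinRoot f) :
    H13.TA.dg f α ≤ W α := by
  by_cases hα : α = 0
  · rw [hα, H13.TA.dg_zero h.monic (by rw [h.deg]; exact h.ha)]
    exact Nat.zero_le _
  classical
  unfold H13.TA.dg
  rw [Algebra.norm_eq_matrix_det (AdjoinRoot.powerBasis' h.monic).basis]
  exact det_gen (a := a) (b := b) (Nat.pos_of_ne_zero h.ha) h.deg _
    fun i j hm => entry h hW hα i j hm

end H13.CB
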