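import Pool.Agent.H13.CB.Det

/-!
# CB-EQ: the degree of the norm is the weight

`O` is a domain: `hW.mul` and `1 ≠ 0` (`dom`). `α = 0`: both are `0` (`H13.TA.dg_zero`, `base` with `c = 0`). Let `α ≠ 0` and
`c = Algebra.norm F[X] α ≠ 0` (`H13.TA.norm_ne`). `α` divides the image of `c` in `O`: `c = α β` (adjugate of the matrix of
multiplication, or Cayley-Hamilton: `α` is a root of the characteristic polynomial with constant term `± c`;
`Algebra.norm` with `PowerBasis`, `LinearMap.aeval_self_charpoly`). `dg α + dg β = dg (c) = a natDegree c`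
(`H13.TA.dg_mul`, `H13.TA.dg_base`) and `W α + W β = W (c) = a natDegree c` (`mul`, `base`); `dg ≤ W` for both (`det_le`).
-/

set_option autoImplicit false

open Polynomial

noncomputable section

namespace H13.CB

variable {F : Type} [Field F] {a b : ℕ} {f : F[X][X]}

private theorem eq_dvd [Module.Free F[X] (AdjoinRoot f)] [Module.Finite F[X] (AdjoinRoot f)]
    (α : AdjoinRoot f) :
    ∃ β, algebraMap F[X] (AdjoinRoot f) (Algebra.norm F[X] α) = α * β := by
  obtain ⟨p, hp⟩ : ∃ p, p = (Algebra.lmul F[X] (AdjoinRoot f) α).charpoly := ⟨_, rfl⟩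
  have h1 : aeval α p = 0 := by
    have h2 := LinearMap.aeval_self_charpoly (Algebra.lmul F[X] (AdjoinRoot f) α)
    rw [← hp, aeval_algHom_apply] at h2
    have h3 := congrArg (fun g : Module.End F[X] (AdjoinRoot f) => g 1) h2
    have h4 : aeval α p * 1 = 0 := h3
    rw [mul_one] at h4
    exact h4
  have h2 : algebraMap F[X] (AdjoinRoot f) (p.coeff 0) = α * (-aeval α p.divX) := by
    have h3 := congrArg (aeval α) (divX_mul_X_add p)
    rw [map_add, map_mul, aeval_X, aeval_C, h1] at h3
    linear_combination h3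
  have h3 : Algebra.norm F[X] α = (-1) ^ Module.finrank F[X] (AdjoinRoot f) * p.coeff 0 := by
    rw [hp, Algebra.norm_apply]
    exact LinearMap.det_eq_sign_charpoly_coeff _
  refine ⟨(-1) ^ Module.finrank F[X] (AdjoinRoot f) * (-aeval α p.divX), ?_⟩
  rw [h3, map_mul, h2, map_pow, map_neg, map_one]
  ring

theorem dom (h : Cab a b f) {W : AdjoinRoot f → ℕ} (hW : IsW a b f W) :
    IsDomain (AdjoinRoot f) := by
  have h1 : Nontrivial (AdjoinRoot f) := by
    apply AdjoinRoot.nontrivial
    intro h0
    have h2 := h.deg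
    rw [natDegree_eq_zero_iff_degree_le_zero.2 h0.le] at h2
    exact h.ha h2.symm
  have h2 : NoZeroDivisors (AdjoinRoot f) := by
    refine ⟨fun {x y} hxy => ?_⟩
    by_contra hcon
    push Not at hcon
    exact (hW.mul x y hcon.1 hcon.2).1 hxy
  exact NoZeroDivisors.to_isDomain _

theorem dg_eq (h : Cab a b f) {W : AdjoinRoot f → ℕ} (hW : IsW a b f W) (α : AdjoinRoot f) :
    H13.TA.dg f α = W α := by
  have hdom := dom h hW
  have h0 : f.natDegree ≠ 0 := by
    rw [h.deg]
    exact h.ha
  have hfree := h.monic.free_adjoinRoot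
  have hfin := h.monic.finite_adjoinRoot
  by_cases hα : α = 0
  · have h1 := hW.base 0
    rw [map_zero, natDegree_zero, mul_zero] at h1
    rw [hα, H13.TA.dg_zero h.monic h0, h1]
  · obtain ⟨c, hc⟩ : ∃ c, c = Algebra.norm F[X] α := ⟨_, rfl⟩
    have hc0 : c ≠ 0 := by
      rw [hc]
      exact H13.TA.norm_ne h.monic hα
    obtain ⟨β, hβ⟩ := eq_dvd (F := F) (f := f) α
    rw [← hc] at hβ
    have hcn : algebraMap F[X] (AdjoinRoot f) c ≠ 0 := by
      intro h2
      have h3 : Algebra.norm F[X] (algebraMap F[X] (AdjoinRoot f) c) = 0 := by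
        rw [h2, Algebra.norm_zero]
      rw [Algebra.norm_algebraMap] at h3
      exact pow_ne_zero _ hc0 h3
    have hβ0 : β ≠ 0 := by
      intro h2
      rw [h2, mul_zero] at hβ
      exact hcn hβ
    have e1 := H13.TA.dg_mul h.monic hα hβ0
    have e2 := (hW.mul α β hα hβ0).2
    rw [← hβ] at e1 e2
    rw [H13.TA.dg_base h.monic, h.deg] at e1
    rw [hW.base] at e2
    have e3 := det_le h hW α
    have e4 := det_le h hW β
    omega

end H13.CB
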