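import Mathlib

/-!
# CB-FA: the numerator of the zeta function

`S(N) = ∑_(n ≤ N) a n`. For `N ≥ N0`: `(q - 1) S(N + 1) + h = q ((q - 1) S(N) + h)`. Subtract for `N` and `N + 1`:
`a (N + 2) = q a (N + 1)` for `N ≥ N0` (`q ≥ 2`). So `c n = a n - q a (n - 1)` (`c 0 = a 0`) is zero for `n ≥ N0 + 2` and
`W = ∑_(n < N0 + 2) c n X ^ n`. `W(1) = S(M) - q S(M - 1)` with `M = N0 + 1`, and `(q - 1)(S(M) - q S(M - 1)) = (q - 1) h`.
For real `x`: `W(x) = a_M x ^ M + (1 - q x) ∑_(n < M) a n x ^ n`. Let `0 < x ≤ 1 / q`: all terms are `≥ 0`. If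
`x < 1 / q`, then `(1 - q x) a 0 > 0`. If `x = 1 / q`, then `W(x) = a_M x ^ M` and `a_M > 0`: otherwise `a (M + k) = 0` for
all `k`, so `S(M) = S(M - 1) = S`, and the relation gives `(q - 1) S + h = q ((q - 1) S + h)`, so `(q - 1) S + h = 0`, against
`S ≥ a 0 = 1`.
-/

set_option autoImplicit false

open Polynomial

noncomputable section

namespace H13.CB

private theorem sum_c (q : ℕ) (a : ℕ → ℕ) (x : ℝ) (m : ℕ) :
    ∑ n ∈ Finset.range (m + 1), (((a n : ℤ) - (if 1 ≤ n then (q : ℤ) ^ 1 * a (n - 1) else 0) : ℤ) : ℝ) *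
      x ^ n = a m * x ^ m + (1 - q * x) * ∑ n ∈ Finset.range m, (a n : ℝ) * x ^ n := by
  induction m with
  | zero => simp
  | succ m ih =>
    rw [Finset.sum_range_succ, ih, Finset.sum_range_succ, if_pos (by omega), Nat.add_sub_cancel]
    push_cast
    ring

theorem formA1 (q h : ℕ) (hq : 2 ≤ q) (a : ℕ → ℕ) (ha0 : a 0 = 1)
    (hrat : ∃ N0, ∀ N ≥ N0, (q - 1) * (∑ n ∈ Finset.range (N + 2), a n) + h =
      q * ((q - 1) * (∑ n ∈ Finset.range (N + 1), a n) + h)) :
    ∃ W : ℤ[X], (∀ n, W.coeff n = (a n : ℤ) - if 1 ≤ n then (q : ℤ) ^ 1 * a (n - 1) else 0) ∧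
      W.eval 1 = h ∧ ∀ x : ℝ, 0 < x → x ≤ (q : ℝ)⁻¹ → 0 < aeval x W := by
  obtain ⟨N0, hN⟩ := hrat
  obtain ⟨c, hc⟩ : ∃ c : ℕ → ℤ, c = fun n =>
    (a n : ℤ) - if 1 ≤ n then (q : ℤ) ^ 1 * a (n - 1) else 0 := ⟨_, rfl⟩
  obtain ⟨p, hp⟩ : ∃ p, q = p + 1 := ⟨q - 1, by omega⟩
  have hp1 : 1 ≤ p := by omega
  have hstep : ∀ N ≥ N0, a (N + 2) = q * a (N + 1) := by
    intro N hNN
    have h1 := hN N hNN
    have h2 := hN (N + 1) (by omega)
    rw [hp, Nat.add_sub_cancel] at h1 h2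
    rw [Finset.sum_range_succ a (N + 1 + 1), Finset.sum_range_succ a (N + 1)] at h2
    rw [Finset.sum_range_succ a (N + 1)] at h1
    rw [hp]
    have h3 : p * a (N + 2) = p * ((p + 1) * a (N + 1)) := by
      have e1 : a (N + 1 + 1) = a (N + 2) := rfl
      rw [e1] at h2
      nlinarith [h1, h2]
    exact Nat.eq_of_mul_eq_mul_left (by omega) h3
  refine ⟨∑ n ∈ Finset.range (N0 + 2), C (c n) * X ^ n, ?_, ?_, ?_⟩
  · intro n
    rw [finset_sum_coeff]
    simp only [coeff_C_mul_X_pow]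
    rw [Finset.sum_ite_eq]
    split_ifs with h1 h2 h2
    · rw [hc]
      simp only
      rw [if_pos h2]
    · rw [hc]
      simp only
      rw [if_neg h2]
    · rw [Finset.mem_range, not_lt] at h1
      obtain ⟨k, rfl⟩ : ∃ k, n = k + 2 := ⟨n - 2, by omega⟩
      have h3 := hstep k (by omega)
      have e1 : k + 2 - 1 = k + 1 := by omega
      rw [e1, h3]
      push_cast
      ring
    · rw [Finset.mem_range] at h1
      omega
  · have h1 : (((∑ n ∈ Finset.range (N0 + 2), C (c n) * X ^ n : ℤ[X]).eval 1 : ℤ) : ℝ) = h := by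
      rw [eval_finset_sum]
      have h2 := sum_c q a 1 (N0 + 1)
      have h3 : ∀ n, (C (c n) * X ^ n : ℤ[X]).eval 1 = c n := by
        intro n
        simp
      simp only [h3]
      rw [Int.cast_sum]
      have h4 : ∑ n ∈ Finset.range (N0 + 2), ((c n : ℤ) : ℝ) =
          a (N0 + 1) * 1 ^ (N0 + 1) + (1 - q * 1) * ∑ n ∈ Finset.range (N0 + 1), (a n : ℝ) * 1 ^ n := by
        rw [← h2, hc]
        refine Finset.sum_congr rfl fun n _ => ?_
        rw [one_pow, mul_one]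
      rw [h4]
      have h5 := hN N0 (le_refl _)
      rw [Finset.sum_range_succ a (N0 + 1)] at h5
      have h6 : ((((q - 1) * (∑ n ∈ Finset.range (N0 + 1), a n + a (N0 + 1)) + h : ℕ)) : ℝ) =
          ((q * ((q - 1) * (∑ n ∈ Finset.range (N0 + 1), a n) + h) : ℕ) : ℝ) := by
        rw [h5]
      rw [hp, Nat.add_sub_cancel] at h6
      push_cast at h6
      rw [hp]
      simp only [one_pow, mul_one]
      push_cast
      have hp0 : (0 : ℝ) < p := by exact_mod_cast hp1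
      have h7 : (p : ℝ) * ((a (N0 + 1) : ℝ) + (1 - (p + 1)) * ∑ n ∈ Finset.range (N0 + 1), (a n : ℝ)) =
          p * h := by
        linear_combination h6
      exact mul_left_cancel₀ hp0.ne' h7
    exact_mod_cast h1
  · intro x hx hxq
    have hq0 : (0 : ℝ) < q := by exact_mod_cast (by omega : 0 < q)
    have h1 : aeval x (∑ n ∈ Finset.range (N0 + 2), C (c n) * X ^ n : ℤ[X]) =
        a (N0 + 1) * x ^ (N0 + 1) + (1 - q * x) * ∑ n ∈ Finset.range (N0 + 1), (a n : ℝ) * x ^ n := by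
      rw [← sum_c, map_sum, hc]
      refine Finset.sum_congr rfl fun n _ => ?_
      rw [map_mul, map_pow, aeval_X, aeval_C, eq_intCast]
    rw [h1]
    have h2 : 0 ≤ 1 - q * x := by
      have := mul_le_mul_of_nonneg_left hxq hq0.le
      rw [mul_inv_cancel₀ hq0.ne'] at this
      linarith
    have h3 : (1 : ℝ) ≤ ∑ n ∈ Finset.range (N0 + 1), (a n : ℝ) * x ^ n := by
      have h4 : (a 0 : ℝ) * x ^ 0 ≤ ∑ n ∈ Finset.range (N0 + 1), (a n : ℝ) * x ^ n :=
        Finset.single_le_sum (f := fun n => (a n : ℝ) * x ^ n) (fun n _ => by positivity)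
          (Finset.mem_range.2 (by omega))
      rw [ha0] at h4
      simpa using h4
    have h5 : 0 ≤ (a (N0 + 1) : ℝ) * x ^ (N0 + 1) := by positivity
    rcases h2.lt_or_eq with h6 | h6
    · have h7 : 0 < (1 - q * x) * ∑ n ∈ Finset.range (N0 + 1), (a n : ℝ) * x ^ n :=
        mul_pos h6 (by linarith)
      linarith
    · rw [← h6, zero_mul, add_zero]
      have h8 : a (N0 + 1) ≠ 0 := by
        intro h0
        have h5 := hN N0 (le_refl _)
        rw [Finset.sum_range_succ a (N0 + 1), h0, add_zero, hp, Nat.add_sub_cancel] at h5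
        have h9 : 1 ≤ ∑ n ∈ Finset.range (N0 + 1), a n := by
          have h10 : a 0 ≤ ∑ n ∈ Finset.range (N0 + 1), a n :=
            Finset.single_le_sum (f := a) (fun n _ => Nat.zero_le _) (Finset.mem_range.2 (by omega))
          rwa [ha0] at h10
        have h11 : 1 ≤ p * ∑ n ∈ Finset.range (N0 + 1), a n := Nat.mul_le_mul hp1 h9
        nlinarith [h5, h11, hp1]
      have h9 : (0 : ℝ) < a (N0 + 1) := by exact_mod_cast Nat.pos_of_ne_zero h8
      positivity

end H13.CB
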