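import Pool.Agent.H13.CB.Wt
import Pool.Agent.H13.CB.Eq
import Pool.Agent.H13.TA.BcG

/-!
# CB-GD: curves of type `C_ab` are good

`good`: `weight`, `dom`, `dg_eq`: `ultra` is `add`, `const` is `zero`. `consec`: `a u = b v + 1` for some `u, v ∈ ℕ`
(`a`, `b` coprime and positive), `y = t ^ u`, `z = x ^ v`. `cab_map`: the coefficients of `f.map` are the images of the
coefficients of `f`, `natDegree_map_eq_of_injective`.
-/

set_option autoImplicit false

open Polynomial

noncomputable section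

namespace H13.CB

variable {F : Type} [Field F] {a b : ℕ} {f : F[X][X]}

theorem good (h : Cab a b f) (hs : Ideal.span {f, derivative f, H13.TA.dt f} = ⊤) :
    H13.TA.Good f := by
  obtain ⟨W, hW⟩ := weight h
  refine ⟨h.monic, ?_, hs, dom h hW, ?_, ?_⟩
  · rw [h.deg]
    exact h.ha
  · intro x y
    rw [dg_eq h hW, dg_eq h hW, dg_eq h hW]
    exact hW.add x y
  · intro x hx
    rw [dg_eq h hW] at hx
    exact hW.zero x hx

private theorem w_one {W : AdjoinRoot f → ℕ} (hW : IsW a b f W) : W 1 = 0 := by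
  have h1 := hW.base 1
  rw [map_one, natDegree_one, mul_zero] at h1
  exact h1

private theorem w_pow {W : AdjoinRoot f → ℕ} (hW : IsW a b f W) (h1 : (1 : AdjoinRoot f) ≠ 0)
    {x : AdjoinRoot f} (hx : x ≠ 0) (n : ℕ) : x ^ n ≠ 0 ∧ W (x ^ n) = n * W x := by
  induction n with
  | zero =>
    rw [pow_zero, zero_mul]
    exact ⟨h1, w_one hW⟩
  | succ n ih =>
    obtain ⟨h2, h3⟩ := hW.mul (x ^ n) x ih.1 hx
    rw [pow_succ]
    exact ⟨h2, by rw [h3, ih.2]; ring⟩

private theorem exists_uv {a b : ℕ} (hb : b ≠ 0) (ha : a ≠ 0) (hab : a.Coprime b) :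
    ∃ u v : ℕ, a * u = b * v + 1 := by
  obtain ⟨k, hk0, hk1⟩ := Nat.chineseRemainder hab 0 1
  obtain ⟨u, hu⟩ := (Nat.modEq_zero_iff_dvd).1 hk0
  have h1 : k + a * b ≡ 1 [MOD b] := by
    have h2 : k + a * b ≡ k + 0 [MOD b] :=
      Nat.ModEq.add_left k ((Nat.modEq_zero_iff_dvd).2 (dvd_mul_left b a))
    exact h2.trans hk1
  have h3 : 1 ≤ k + a * b := by
    have : 1 ≤ a * b := Nat.mul_pos (Nat.pos_of_ne_zero ha) (Nat.pos_of_ne_zero hb)
    omega
  obtain ⟨v, hv⟩ := (Nat.modEq_iff_dvd' h3).1 h1.symm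
  refine ⟨u + b, v, ?_⟩
  rw [mul_add, ← hu]
  omega

theorem consec (h : Cab a b f) : ∃ y z : AdjoinRoot f, y ≠ 0 ∧ z ≠ 0 ∧
    H13.TA.dg f y = H13.TA.dg f z + 1 := by
  obtain ⟨W, hW⟩ := weight h
  have hd := dom h hW
  have h1 : (1 : AdjoinRoot f) ≠ 0 := one_ne_zero
  have w0 : W 0 = 0 := by
    have h1 := hW.base 0
    rw [map_zero, natDegree_zero, mul_zero] at h1
    exact h1
  have ht := hW.base X
  rw [natDegree_X, mul_one] at ht
  have ht0 : algebraMap F[X] (AdjoinRoot f) X ≠ 0 := by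
    intro h2
    rw [h2, w0] at ht
    exact h.ha ht.symm
  have hx := hW.root
  have hx0 : AdjoinRoot.root f ≠ 0 := by
    intro h2
    rw [h2, w0] at hx
    exact h.hb hx.symm
  obtain ⟨u, v, huv⟩ := exists_uv h.hb h.ha h.cop
  obtain ⟨h3, h4⟩ := w_pow hW h1 ht0 u
  obtain ⟨h5, h6⟩ := w_pow hW h1 hx0 v
  refine ⟨_, _, h3, h5, ?_⟩
  rw [dg_eq h hW, dg_eq h hW, h4, h6, ht, hx, mul_comm u a, huv, mul_comm b v]

theorem cab_bc (h : Cab a b f) (F' : Type) [Field F'] [Algebra F F'] :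
    Cab a b (H13.TA.bc F' f) := by
  have hinj : Function.Injective (mapRingHom (algebraMap F F')) :=
    Polynomial.map_injective _ (algebraMap F F').injective
  have hco : ∀ i, (H13.TA.bc F' f).coeff i = (f.coeff i).map (algebraMap F F') := by
    intro i
    unfold H13.TA.bc
    rw [coeff_map]
    rfl
  have hdg : ∀ i, ((H13.TA.bc F' f).coeff i).natDegree = (f.coeff i).natDegree := by
    intro i
    rw [hco, natDegree_map]
  refine ⟨h.ha, h.hb, h.cop, h.monic.map _, ?_, ?_, ?_⟩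
  · unfold H13.TA.bc
    rw [natDegree_map_eq_of_injective hinj, h.deg]
  · rw [hdg, h.deg0]
  · intro i hi
    rw [hdg]
    refine h.wt i ?_
    intro h0
    apply hi
    rw [hco, h0, Polynomial.map_zero]

end H13.CB
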