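import Pool.Agent.H13.CB.Defs
import Pool.Agent.H13.TA.Psum
import Pool.Agent.H13.TA.Resl
import Pool.Agent.H13.TA.BcP

/-!
# CB-PS: the zeta polynomial over an extension

`d = [F' : F]`, `q' = |F'| = q ^ d` (`Module.natCard_eq_pow_finrank`). `ps_sum`: `hV'.npt r`, `hV.npt (d r)` and
`H13.TA.bcp r` (`npt (bc F' f) r = npt f (d r)`). `ps_prod`: apply `H13.TA.psum` to the multisets `ρ' / x` and `ρ ^ d / x`
(all power sums agree by `ps_sum`), `1 - ρ / x = (x - ρ) / x`; both multisets have the same number of elements? This is not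
needed: the products of the `1 - ρ' / x` and of the `1 - ρ ^ d / x` are equal. `cl1`: `x = 1` in `ps_prod`: the left side is
`V'(1) = c'` (`V'` monic, splits over `ℂ`: `Polynomial.eval_eq_prod_roots...`, `aeval`), so `H13.TA.resl` with `z = c'`, `d = k l ^ j` gives the
assertion (compare `H13.TA.cln`).
-/

set_option autoImplicit false

open Polynomial

noncomputable section

namespace H13.CB

variable {F : Type} [Field F] {f : F[X][X]} {F' : Type} [Field F'] [Algebra F F']

theorem ps_sum [Finite F] [Finite F'] {V V' : ℤ[X]} {c c' : ℕ} (hV : IsZ f V c)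
    (hV' : IsZ (H13.TA.bc F' f) V' c') (r : ℕ) (hr : r ≠ 0) :
    ((V'.aroots ℂ).map fun ρ => ρ ^ r).sum =
      (((V.aroots ℂ).map fun ρ => ρ ^ Module.finrank F F').map fun ρ => ρ ^ r).sum := by
  have hfin : Module.Finite F F' := Module.Finite.of_finite
  have hQ : Nat.card F' = Nat.card F ^ Module.finrank F F' := Module.natCard_eq_pow_finrank
  have hd0 : Module.finrank F F' ≠ 0 := Module.finrank_pos.ne'
  have e1 := hV'.npt r hr
  have e2 := hV.npt (Module.finrank F F' * r) (mul_ne_zero hd0 hr)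
  have e5 : (Nat.card F' : ℂ) ^ r = (Nat.card F : ℂ) ^ (Module.finrank F F' * r) := by
    rw [hQ, Nat.cast_pow, ← pow_mul]
  have e6 : (((V.aroots ℂ).map fun ρ => ρ ^ Module.finrank F F').map fun ρ => ρ ^ r).sum =
      ((V.aroots ℂ).map fun ρ => ρ ^ (Module.finrank F F' * r)).sum := by
    rw [Multiset.map_map]
    congr 1
    refine Multiset.map_congr rfl fun ρ _ => ?_
    rw [Function.comp_apply, ← pow_mul]
  rw [e6]
  rw [e5, H13.TA.bcp r, e2] at e1
  exact (sub_right_injective e1).symm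

theorem ps_prod [Finite F] [Finite F'] {V V' : ℤ[X]} {c c' : ℕ} (hV : IsZ f V c)
    (hV' : IsZ (H13.TA.bc F' f) V' c') (x : ℂ) (hx : x ≠ 0) :
    ((V'.aroots ℂ).map fun ρ => 1 - ρ / x).prod =
      ((V.aroots ℂ).map fun ρ => 1 - ρ ^ Module.finrank F F' / x).prod := by
  have h1 := H13.TA.psum ((V'.aroots ℂ).map fun ρ => ρ / x)
    (((V.aroots ℂ).map fun ρ => ρ ^ Module.finrank F F').map fun ρ => ρ / x) (by
      intro r hr
      have h2 : ∀ Q : Multiset ℂ, ((Q.map fun ρ => ρ / x).map fun ρ => ρ ^ r).sum =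
          (Q.map fun ρ => ρ ^ r).sum / x ^ r := by
        intro Q
        rw [Multiset.map_map, ← Multiset.sum_map_div]
        congr 1
        refine Multiset.map_congr rfl fun ρ _ => ?_
        rw [Function.comp_apply, div_pow]
      rw [h2, h2, ps_sum hV hV' r hr])
  rw [Multiset.map_map, Multiset.map_map, Multiset.map_map] at h1
  exact h1

theorem cl1 [Finite F] [Finite F'] {V V' : ℤ[X]} {c c' : ℕ} (hV : IsZ f V c)
    (hV' : IsZ (H13.TA.bc F' f) V' c') (l k j : ℕ) (hl : l.Prime) (hk : k ∣ l - 1)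
    (hF : Module.finrank F F' = k * l ^ j)
    (hno : ∀ b : ZMod l, (V.map (Int.castRingHom (ZMod l))).eval b = 0 → b ^ k ≠ 1) :
    ¬ l ∣ c' := by
  intro hlc
  have hprod := ps_prod hV hV' 1 one_ne_zero
  simp only [div_one] at hprod
  have hev : ((V'.eval 1 : ℤ) : ℂ) = ((V'.aroots ℂ).map fun ρ => 1 - ρ).prod := by
    have e1 : (V'.map (algebraMap ℤ ℂ)).eval 1 = ((V'.aroots ℂ).map fun ρ => 1 - ρ).prod :=
      (IsAlgClosed.splits (V'.map (algebraMap ℤ ℂ))).eval_eq_prod_roots_of_monic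
        (hV'.monic.map _) 1
    rw [← e1]
    have e2 : ((V'.eval 1 : ℤ) : ℂ) = (V'.map (Int.castRingHom ℂ)).eval ((1 : ℤ) : ℂ) := by
      rw [Polynomial.eval_intCast_map, eq_intCast, Int.cast_id]
    rw [e2, Int.cast_one]
    rfl
  obtain ⟨b, hb1, hb2⟩ := H13.TA.resl V hV.monic l k j hl hk (V'.eval 1) (by
    rw [hev, hprod, hF]) (by
    rw [hV'.one]
    exact_mod_cast hlc)
  exact hno b hb1 hb2

end H13.CB
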