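import Pool.Agent.H13.TA.Rat
import Pool.Agent.H13.CB.Defs

/-!
# CB-RAT: rationality of the zeta function with denominator `1 - q T`

For an ideal `J ≠ 0` and `n = dg z`: for large `D` `XD(D + n + 1) = q ^ (n + 1) XD(D)` and `XD(D + n) = q ^ n XD(D)`
(`H13.TA.xd_grow` for `y` and `z`), so `XD(D + 1) = q XD(D)` for all large `D`. Take the `J C` of `H13.TA.cls` (finitely many
classes: `H13.TA.clf`, `Fintype.ofFinite`) and `N0` large for all classes (compare the proof of `H13.TA.rat`).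
-/

set_option autoImplicit false

open Polynomial

noncomputable section

namespace H13.CB

variable {F : Type} [Field F] {f : F[X][X]}

private theorem xd_one [Finite F] (h : H13.TA.Good f) [IsDedekindDomain (AdjoinRoot f)]
    (y z : AdjoinRoot f) (hy : y ≠ 0) (hz : z ≠ 0) (hyz : H13.TA.dg f y = H13.TA.dg f z + 1)
    {J : Ideal (AdjoinRoot f)} (hJ : J ≠ ⊥) :
    ∃ D0, ∀ D ≥ D0, H13.TA.XD f J (D + 1) = Nat.card F * H13.TA.XD f J D := by
  obtain ⟨D1, h1⟩ := H13.TA.xd_grow h hJ hy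
  obtain ⟨D2, h2⟩ := H13.TA.xd_grow h hJ hz
  have hq0 : 0 < Nat.card F := Nat.card_pos
  refine ⟨max D1 D2, fun D hD => ?_⟩
  have h3 := h1 D (le_trans (le_max_left _ _) hD)
  have h4 := h2 (D + 1) (le_trans (le_trans (le_max_right _ _) hD) (Nat.le_succ D))
  rw [hyz, show D + (H13.TA.dg f z + 1) = D + 1 + H13.TA.dg f z by omega, h4, pow_succ, mul_assoc] at h3
  exact Nat.eq_of_mul_eq_mul_left (pow_pos hq0 _) h3

theorem rat1 [Finite F] (h : H13.TA.Good f) [IsDedekindDomain (AdjoinRoot f)]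
    (y z : AdjoinRoot f) (hy : y ≠ 0) (hz : z ≠ 0) (hyz : H13.TA.dg f y = H13.TA.dg f z + 1) :
    ∃ N0, ∀ N ≥ N0, (Nat.card F - 1) * H13.TA.AN f (N + 1) +
        Nat.card (ClassGroup (AdjoinRoot f)) =
      Nat.card F * ((Nat.card F - 1) * H13.TA.AN f N + Nat.card (ClassGroup (AdjoinRoot f))) := by
  classical
  have hfin : Finite (ClassGroup (AdjoinRoot f)) := H13.TA.clf h.monic
  have := Fintype.ofFinite (ClassGroup (AdjoinRoot f))
  obtain ⟨J, hJ, hcls⟩ := H13.TA.cls h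
  choose D0 hD0 using fun C => xd_one h y z hy hz hyz (hJ C)
  refine ⟨∑ C, D0 C, fun N hN => ?_⟩
  rw [hcls, hcls, Finset.mul_sum]
  apply Finset.sum_congr rfl
  intro C _
  have h1 : D0 C ≤ ∑ C, D0 C := Finset.single_le_sum (fun _ _ => Nat.zero_le _) (Finset.mem_univ C)
  have h2 := hD0 C (N + H13.TA.ideg f (J C)) (by omega)
  rw [← h2]
  congr 1
  omega

end H13.CB
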