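import Pool.Agent.H13.CB.Wl

/-!
# CB-RED: reduction modulo `f` and weights

`psi_f`: the coefficient of `X ^ (a b)` in `psi f = ∑_(i ≤ a) c_i(X ^ a) κ ^ i X ^ (b i)`: from `i = a` (`c_a = 1`) `κ ^ a`, from
`i = 0` the leading coefficient of `c_0` (degree `b`), from `0 < i < a` nothing, since `a j + b i = a b` would give
`a ∣ i`. The sum is `0` by `hκ`.

`red`: strong induction on `natDegree g`. If `natDegree g < a`, then `g %ₘ f = g`
(`modByMonic_eq_self_iff`). Otherwise let `k = natDegree g ≥ a`, `c = leadingCoeff g ≠ 0`, `u = C c * X ^ (k - a)`,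
`g' = g - u f`. `a natDegree c + b k ≤ n` by `hg`, so `a b ≤ n` and `u` has weight at most `n - a b` (`wl_term`), `u f` has weight
at most `n` (`wl_mul`, `h.wt`), so `WL n g'`. `g'` has smaller degree (or is zero; then treat it directly) and the same
remainder (`sub_modByMonic`, `f ∣ u f`). `psi g - psi g' = psi u * psi f`, `natDegree (psi u) ≤ n - a b`,
`natDegree (psi f) ≤ a b` (`psi_deg`), so the coefficient of `X ^ n` in the product is the product of the coefficients
of `X ^ (n - a b)` and `X ^ (a b)` (`coeff_mul_of_natDegree_le`), which is `0` by `psi_f`.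
-/

set_option autoImplicit false

open Polynomial

noncomputable section

namespace H13.CB

variable {F : Type} [Field F] {a b : ℕ} {f : F[X][X]}

private theorem psi_eq (κ : AlgebraicClosure F) (g : F[X][X]) :
    psi a b κ g = ∑ i ∈ Finset.range (g.natDegree + 1),
      expand (AlgebraicClosure F) a ((g.coeff i).map (algebraMap F (AlgebraicClosure F))) *
        (C (κ ^ i) * X ^ (b * i)) := by
  unfold psi
  rw [coe_eval₂RingHom, eval₂_eq_sum_range]
  refine Finset.sum_congr rfl fun i _ => ?_
  rw [coe_eval₂RingHom, coe_expand, eval₂_map, mul_pow, ← C_pow, ← pow_mul]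

theorem psi_f (h : Cab a b f) {κ : AlgebraicClosure F}
    (hκ : κ ^ a = -algebraMap F (AlgebraicClosure F) (f.coeff 0).leadingCoeff) :
    (psi a b κ f).coeff (a * b) = 0 := by
  have ha : 0 < a := Nat.pos_of_ne_zero h.ha
  rw [psi_eq, h.deg, finset_sum_coeff]
  have hterm : ∀ i ∈ Finset.range (a + 1), (expand (AlgebraicClosure F) a
      ((f.coeff i).map (algebraMap F (AlgebraicClosure F))) * (C (κ ^ i) * X ^ (b * i))).coeff
        (a * b) = (if i = 0 then algebraMap F (AlgebraicClosure F) (f.coeff 0).leadingCoeff
          else 0) + if i = a then κ ^ a else 0 := by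
    intro i hi
    rw [Finset.mem_range] at hi
    have hle : b * i ≤ a * b := by
      rw [mul_comm a b]
      exact Nat.mul_le_mul_left _ (by omega)
    rw [← mul_assoc, coeff_mul_X_pow', if_pos hle, mul_comm, coeff_C_mul, coeff_expand ha]
    by_cases h0 : i = 0
    · subst h0
      have h0a : (0 : ℕ) ≠ a := fun h1 => h.ha h1.symm
      rw [mul_zero, Nat.sub_zero, if_pos (dvd_mul_right a b), Nat.mul_div_cancel_left _ ha,
        coeff_map, pow_zero, one_mul, if_pos rfl, if_neg h0a, add_zero, leadingCoeff, h.deg0]
    · rw [if_neg h0, zero_add]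
      by_cases h1 : i = a
      · subst h1
        have h2 : f.coeff i = 1 := by
          have := h.monic.coeff_natDegree
          rwa [h.deg] at this
        rw [if_pos rfl, mul_comm b i, Nat.sub_self, if_pos (dvd_zero _), Nat.zero_div, h2,
          Polynomial.map_one, coeff_one_zero, mul_one]
      · rw [if_neg h1, if_neg, mul_zero]
        intro h2
        have h3 : a ∣ b * i := by
          have h4 := (Nat.dvd_sub_iff_right hle (dvd_mul_right a b)).1 h2
          exact h4
        have h5 : a ∣ i := h.cop.dvd_of_dvd_mul_left h3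
        have h6 := Nat.le_of_dvd (Nat.pos_of_ne_zero h0) h5
        omega
  rw [Finset.sum_congr rfl hterm, Finset.sum_add_distrib, Finset.sum_ite_eq', Finset.sum_ite_eq',
    if_pos (Finset.mem_range.2 (by omega)), if_pos (Finset.mem_range.2 (by omega)), hκ,
    add_neg_cancel]

theorem red (h : Cab a b f) {κ : AlgebraicClosure F}
    (hκ : κ ^ a = -algebraMap F (AlgebraicClosure F) (f.coeff 0).leadingCoeff) {n : ℕ}
    {g : F[X][X]} (hg : WL a b n g) :
    WL a b n (g %ₘ f) ∧ (psi a b κ (g %ₘ f)).coeff n = (psi a b κ g).coeff n := by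
  induction hd : g.natDegree using Nat.strong_induction_on generalizing g with
  | _ d ih =>
    have hf0 : f ≠ 0 := h.monic.ne_zero
    by_cases hlt : d < a
    · have h1 : g %ₘ f = g := by
        rw [modByMonic_eq_self_iff h.monic]
        exact degree_lt_degree (by rw [hd, h.deg]; exact hlt)
      rw [h1]
      exact ⟨hg, rfl⟩
    · rw [not_lt] at hlt
      have ha : 0 < a := Nat.pos_of_ne_zero h.ha
      have hg0 : g ≠ 0 := by
        rintro rfl
        rw [natDegree_zero] at hd
        omega
      have hc : g.leadingCoeff ≠ 0 := leadingCoeff_ne_zero.2 hg0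
      have hw := hg d (by rw [← hd]; exact hc)
      have hab : a * b ≤ b * d := by
        rw [mul_comm a b]
        exact Nat.mul_le_mul_left _ hlt
      have hsub : b * (d - a) + a * b = b * d := by
        rw [mul_comm a b, ← mul_add, Nat.sub_add_cancel hlt]
      obtain ⟨u, hu⟩ : ∃ u : F[X][X], u = C g.leadingCoeff * X ^ (d - a) := ⟨_, rfl⟩
      have hlc : g.coeff d = g.leadingCoeff := by rw [← hd]; rfl
      rw [hlc] at hw
      have hwu : WL a b (n - a * b) u := by
        rw [hu]
        refine wl_term fun _ => ?_
        omega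
      have hwf : WL a b (a * b) f := h.wt
      have hwuf : WL a b n (u * f) := by
        have h1 := wl_mul hwu hwf
        rwa [Nat.sub_add_cancel (by omega)] at h1
      have hwg : WL a b n (g - u * f) := by
        rw [sub_eq_add_neg]
        exact wl_add hg (wl_neg hwuf)
      have hdeg : (g - u * f).degree < g.degree := by
        have h1 := div_wf_lemma (p := g) (q := f)
          ⟨by
            rw [degree_eq_natDegree hf0, degree_eq_natDegree hg0, h.deg, hd]
            exact_mod_cast hlt, hg0⟩ h.monic
        rw [h.deg, hd, ← hu, mul_comm] at h1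
        exact h1
      have hnd : (g - u * f).natDegree < d := by
        by_cases h0 : g - u * f = 0
        · rw [h0, natDegree_zero]
          omega
        · rw [← hd]
          exact natDegree_lt_natDegree h0 hdeg
      obtain ⟨i1, i2⟩ := ih _ hnd hwg rfl
      have hmod : (g - u * f) %ₘ f = g %ₘ f := by
        rw [sub_modByMonic, (modByMonic_eq_zero_iff_dvd h.monic).2 (dvd_mul_left f u), sub_zero]
      rw [hmod] at i1 i2
      refine ⟨i1, i2.trans ?_⟩
      rw [map_sub, map_mul, coeff_sub]
      have hn : n = (n - a * b) + a * b := by omega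
      have h2 : (psi a b κ u * psi a b κ f).coeff n = 0 := by
        conv_lhs => rw [hn]
        rw [coeff_mul_add_eq_of_natDegree_le (psi_deg hwu κ) (psi_deg hwf κ), psi_f h hκ, mul_zero]
      rw [h2, sub_zero]

end H13.CB
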