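import Pool.Agent.H13.CB.Defs
import Pool.Agent.H63.EH.Chi

/-!
# CB-SP: reduction

`spec`: over `K = Frac O` there are `A, B, C ∈ K[t][x]` with `f A + f_x B + f_t C = 1` (`Ideal.mem_span_insert`,
`Ideal.eq_top_iff_one`). With a common denominator `d ≠ 0` of all coefficients (finitely many:
`IsLocalization.exist_integer_multiples_of_finset` or `IsLocalization.integerNormalization`, twice): `f A' + f_x B' + f_t C' = d` in
`O[t][x]` (the map `O[t][x] → K[t][x]` is injective). `h0 = d lc(f.coeff 0)`. Let `φ h0 ≠ 0`. Then the ideal of the reduction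
contains the unit `φ d` (`derivative`, `dt` commute with `map`), and `Cab`: `(f.coeff 0)` keeps its degree `b` since
`φ (lc) ≠ 0`; the degrees of the other coefficients can only drop (`natDegree_map_le`); `f` monic of degree `a`
(`Monic.natDegree_map`).

`jac`: `O_h = Localization.Away h` is of finite type over `ℤ` and not zero (`h ≠ 0` in a domain). Let `m` be a maximal ideal,
`k = O_h / m`: a field of finite type over `ℤ`, so finite over `ℤ` (`finite_of_finite_type_of_isJacobsonRing`), so `k` is a
finite field: `ℤ → k` is not injective (else `ℤ`, over which the field `k` is integral, would be a field,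
`isField_of_isIntegral_of_isField'`), so `k` is a finite module over a finite ring `ℤ/n`. `O → k` does not kill `h` (a unit of `O_h`). Its image is a finite
domain, so a field `F` (`Finite.isField_of_domain`/`Fintype.fieldOfDomain`; `RingHom.range`).
-/

set_option autoImplicit false

open Polynomial

noncomputable section

namespace H13.CB

/-- `f` over the field of fractions -/
def ofr (O : Type) [CommRing O] [IsDomain O] (f : O[X][X]) : (FractionRing O)[X][X] :=
  f.map (mapRingHom (algebraMap O (FractionRing O)))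

private theorem sp_dt_coeff {R : Type} [CommRing R] (g : R[X][X]) (n : ℕ) :
    (H13.TA.dt g).coeff n = derivative (g.coeff n) := by
  unfold H13.TA.dt
  rw [Polynomial.sum_def, finsetSum_coeff]
  simp only [coeff_monomial]
  rw [Finset.sum_ite_eq' g.support n]
  by_cases hn : n ∈ g.support
  · rw [if_pos hn]
  · rw [if_neg hn, notMem_support_iff.1 hn, derivative_zero]

private theorem sp_dt_map {R S : Type} [CommRing R] [CommRing S] (φ : R →+* S) (g : R[X][X]) :
    H13.TA.dt (g.map (mapRingHom φ)) = (H13.TA.dt g).map (mapRingHom φ) := by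
  ext1 n
  rw [sp_dt_coeff, coeff_map, coeff_map, sp_dt_coeff, coe_mapRingHom, derivative_map]

private theorem sp_den (O : Type) [CommRing O] [IsDomain O] (A : (FractionRing O)[X][X]) :
    ∃ d : O, d ≠ 0 ∧ ∃ A' : O[X][X], A'.map (mapRingHom (algebraMap O (FractionRing O))) =
      C (C (algebraMap O (FractionRing O) d)) * A := by
  induction A using Polynomial.induction_on' with
  | add p q hp hq =>
    obtain ⟨d1, h1, A1, e1⟩ := hp
    obtain ⟨d2, h2, A2, e2⟩ := hq
    refine ⟨d1 * d2, mul_ne_zero h1 h2, C (C d2) * A1 + C (C d1) * A2, ?_⟩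
    rw [Polynomial.map_add, Polynomial.map_mul, Polynomial.map_mul, e1, e2, map_C, map_C,
      coe_mapRingHom, map_C, map_C, map_mul, map_mul, map_mul]
    ring
  | monomial n p =>
    obtain ⟨b, hb, h⟩ := IsLocalization.integerNormalization_spec (nonZeroDivisors O) p
    refine ⟨b, nonZeroDivisors.ne_zero hb,
      monomial n (IsLocalization.integerNormalization (nonZeroDivisors O) p), ?_⟩
    rw [map_monomial, coe_mapRingHom, h, C_mul_monomial]
    congr 1
    rw [← Polynomial.smul_eq_C_mul, algebraMap_smul]

theorem spec (O : Type) [CommRing O] [IsDomain O] (a b : ℕ) (f : O[X][X]) (h : Cab a b f)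
    (hs : Ideal.span {ofr O f, derivative (ofr O f), H13.TA.dt (ofr O f)} = ⊤) :
    ∃ h0 : O, h0 ≠ 0 ∧ ∀ (F : Type) [Field F] (φ : O →+* F), φ h0 ≠ 0 →
      Cab a b (f.map (mapRingHom φ)) ∧
      Ideal.span {f.map (mapRingHom φ), derivative (f.map (mapRingHom φ)),
        H13.TA.dt (f.map (mapRingHom φ))} = ⊤ := by
  rw [Ideal.eq_top_iff_one, Ideal.mem_span_insert] at hs
  obtain ⟨A, z, hz, h1⟩ := hs
  rw [Ideal.mem_span_pair] at hz
  obtain ⟨B, D, hBD⟩ := hz
  obtain ⟨d1, hd1, A1, hA1⟩ := sp_den O A
  obtain ⟨d2, hd2, B1, hB1⟩ := sp_den O B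
  obtain ⟨d3, hd3, D1, hD1⟩ := sp_den O D
  have hinj : Function.Injective (mapRingHom (mapRingHom (algebraMap O (FractionRing O)))) :=
    map_injective _ (map_injective _ (IsFractionRing.injective O (FractionRing O)))
  have key : C (C (d2 * d3)) * A1 * f + C (C (d1 * d3)) * B1 * derivative f +
      C (C (d1 * d2)) * D1 * H13.TA.dt f = C (C (d1 * d2 * d3)) := by
    apply hinj
    rw [coe_mapRingHom]
    simp only [Polynomial.map_add, Polynomial.map_mul, map_C, coe_mapRingHom, map_mul]
    rw [hA1, hB1, hD1, ← sp_dt_map, ← derivative_map]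
    have h2 : f.map (mapRingHom (algebraMap O (FractionRing O))) = ofr O f := rfl
    rw [h2]
    rw [← hBD] at h1
    calc _ = C (C (algebraMap O (FractionRing O) d1)) * C (C (algebraMap O (FractionRing O) d2)) *
        C (C (algebraMap O (FractionRing O) d3)) * (A * ofr O f + (B * derivative (ofr O f) +
          D * H13.TA.dt (ofr O f))) := by ring
      _ = _ := by rw [← h1, mul_one]
  have hlc : (f.coeff 0).leadingCoeff ≠ 0 := by
    rw [Ne, leadingCoeff_eq_zero]
    intro h2
    have h3 := h.deg0
    rw [h2, natDegree_zero] at h3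
    exact h.hb h3.symm
  refine ⟨d1 * d2 * d3 * (f.coeff 0).leadingCoeff,
    mul_ne_zero (mul_ne_zero (mul_ne_zero hd1 hd2) hd3) hlc, fun F _ φ hφ => ?_⟩
  rw [map_mul] at hφ
  have hφ1 := left_ne_zero_of_mul hφ
  have hφ2 := right_ne_zero_of_mul hφ
  refine ⟨⟨h.ha, h.hb, h.cop, h.monic.map _, ?_, ?_, ?_⟩, ?_⟩
  · rw [h.monic.natDegree_map, h.deg]
  · rw [coeff_map, coe_mapRingHom, natDegree_map_of_leadingCoeff_ne_zero φ hφ2, h.deg0]
  · intro i hi
    rw [coeff_map, coe_mapRingHom] at hi ⊢
    have h2 : f.coeff i ≠ 0 := fun h3 => hi (by rw [h3, Polynomial.map_zero])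
    have h3 := Nat.mul_le_mul_left a (natDegree_map_le (f := φ) (p := f.coeff i))
    have h4 := h.wt i h2
    omega
  · rw [Ideal.eq_top_iff_one]
    have h2 := congrArg (Polynomial.map (mapRingHom φ)) key
    simp only [Polynomial.map_add, Polynomial.map_mul, map_C, coe_mapRingHom] at h2
    rw [← sp_dt_map, ← derivative_map] at h2
    have h3 : C (C (φ (d1 * d2 * d3))⁻¹) * C (C (φ (d1 * d2 * d3))) = (1 : F[X][X]) := by
      rw [← C_mul, ← C_mul, inv_mul_cancel₀ hφ1, C_1, C_1]
    rw [← h3, ← h2]
    refine Ideal.mul_mem_left _ _ ?_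
    refine Ideal.add_mem _ (Ideal.add_mem _ ?_ ?_) ?_
    · exact Ideal.mul_mem_left _ _ (Ideal.subset_span (by simp))
    · exact Ideal.mul_mem_left _ _ (Ideal.subset_span (by simp))
    · exact Ideal.mul_mem_left _ _ (Ideal.subset_span (by simp))

theorem jac (O : Type) [CommRing O] [IsDomain O] [Algebra.FiniteType ℤ O] (h : O) (hh : h ≠ 0) :
    ∃ (F : Type) (_ : Field F) (_ : Finite F) (φ : O →+* F), Function.Surjective φ ∧ φ h ≠ 0 := by
  have hle : Submonoid.powers h ≤ nonZeroDivisors O := powers_le_nonZeroDivisors_of_noZeroDivisors hh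
  have hinj : Function.Injective (algebraMap O (Localization.Away h)) :=
    IsLocalization.injective (Localization.Away h) hle
  have hnt : Nontrivial (Localization.Away h) := hinj.nontrivial
  obtain ⟨m, hm⟩ := Ideal.exists_maximal (Localization.Away h)
  let _ := Ideal.Quotient.field m
  have hft : Algebra.FiniteType O (Localization.Away h) :=
    IsLocalization.finiteType_of_monoid_fg (Submonoid.powers h) (Localization.Away h)
  have hft2 : (Int.castRingHom (Localization.Away h ⧸ m)).FiniteType := by
    have h1 : ((Ideal.Quotient.mk m).comp ((algebraMap O (Localization.Away h)).comp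
        (algebraMap ℤ O))).FiniteType :=
      (RingHom.FiniteType.of_surjective _ Ideal.Quotient.mk_surjective).comp
        ((RingHom.finiteType_algebraMap.2 hft).comp (RingHom.finiteType_algebraMap.2 inferInstance))
    have h2 : Int.castRingHom (Localization.Away h ⧸ m) = (Ideal.Quotient.mk m).comp
        ((algebraMap O (Localization.Away h)).comp (algebraMap ℤ O)) := RingHom.ext_int _ _
    rw [h2]
    exact h1
  obtain ⟨p, -, -, hfk⟩ := H63EH.finite_of_finiteType (Localization.Away h ⧸ m) hft2
  obtain ⟨ψ, hψ⟩ : ∃ ψ : O →+* (Localization.Away h ⧸ m),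
    ψ = (Ideal.Quotient.mk m).comp (algebraMap O (Localization.Away h)) := ⟨_, rfl⟩
  have hψh : ψ h ≠ 0 := by
    have h1 : IsUnit (algebraMap O (Localization.Away h) h) :=
      IsLocalization.Away.algebraMap_isUnit h
    have h2 : IsUnit (ψ h) := by
      rw [hψ, RingHom.comp_apply]
      exact h1.map (Ideal.Quotient.mk m)
    exact h2.ne_zero
  have hfr : Finite ψ.range := Subtype.finite
  refine ⟨ψ.range, (Finite.isField_of_domain ψ.range).toField, hfr, ψ.rangeRestrict,
    ψ.rangeRestrict_surjective, fun h1 => hψh ?_⟩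
  have h2 := congrArg (Subtype.val) h1
  exact h2

end H13.CB
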