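import Pool.Agent.H13.CB.Rat1
import Pool.Agent.H13.CB.FA1
import Pool.Agent.H13.TA.Zeta

/-!
# CB-ZT: the zeta polynomial

Compare the proof of `H13.TA.zeta`. `a n = H13.TA.an f n`, `a 0 = 1` (`H13.TA.an_zero`), `H13.TA.an_sum`; `rat1` gives the
hypothesis of `formA1` with `h` = class number. `V = W.reverse`. `W.coeff 0 = a 0 = 1`, so `V` is monic (the leading
coefficient of `W.reverse` is the lowest nonzero coefficient of `W`: `reverse_leadingCoeff`, `trailingCoeff`), `V(0)` is the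
leading coefficient of `W`, not zero; `V(1) = W(1) = h` (`eval₂_reverse_mul_pow` with `x = 1`); the class number is finite
and positive (`H13.TA.clf`, `Nat.card_pos`); for real `x ≥ q`: `V(x) = x ^ deg W(1 / x) > 0`
(`eval₂_reverse_mul_pow` for `x⁻¹`). `npt`: `H13.TA.formB` with `m = 1`, `ν r = ∑_(d ∣ r) d * pn f d` and
`H13.TA.recB`, `H13.TA.pts`.
-/

set_option autoImplicit false

open Polynomial

noncomputable section

namespace H13.CB

variable {F : Type} [Field F] {f : F[X][X]}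

theorem zeta1 [Finite F] (h : H13.TA.Good f) [IsDedekindDomain (AdjoinRoot f)]
    (hc : ∃ y z : AdjoinRoot f, y ≠ 0 ∧ z ≠ 0 ∧ H13.TA.dg f y = H13.TA.dg f z + 1) :
    ∃ V : ℤ[X], IsZ f V (Nat.card (ClassGroup (AdjoinRoot f))) := by
  have hdom := h.dom
  have hq : 2 ≤ Nat.card F := Finite.one_lt_card
  have ha0 : H13.TA.an f 0 = 1 := H13.TA.an_zero h.monic
  obtain ⟨y, z, hy, hz, hyz⟩ := hc
  obtain ⟨W, hW, hW1, hW2⟩ := formA1 (Nat.card F)
    (Nat.card (ClassGroup (AdjoinRoot f))) hq (H13.TA.an f) ha0 (by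
      obtain ⟨N0, hN0⟩ := rat1 h y z hy hz hyz
      refine ⟨N0, fun N hN => ?_⟩
      have h1 := hN0 N hN
      rw [H13.TA.an_sum h.monic, H13.TA.an_sum h.monic] at h1
      exact h1)
  have hW0 : W.coeff 0 = 1 := by
    rw [hW 0, if_neg (by omega), ha0]
    norm_num
  have hWne : W ≠ 0 := by
    intro h0
    rw [h0, coeff_zero] at hW0
    exact zero_ne_one hW0
  have hrev : ∀ (S : Type) [Field S] (x : S), x ≠ 0 →
      eval₂ (Int.castRingHom S) x⁻¹ W.reverse * x ^ W.natDegree =
        eval₂ (Int.castRingHom S) x W := by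
    intro S _ x hx
    have : Invertible x := invertibleOfNonzero hx
    have h1 := eval₂_reverse_mul_pow (Int.castRingHom S) x W
    rwa [invOf_eq_inv] at h1
  refine ⟨W.reverse, ?_, ?_, ?_, ?_, ?_, ?_⟩
  · unfold Monic
    rw [reverse_leadingCoeff]
    unfold trailingCoeff
    rw [natTrailingDegree_eq_zero.2 (Or.inr (by rw [hW0]; exact one_ne_zero)), hW0]
  · rw [← coeff_zero_eq_eval_zero, coeff_zero_reverse]
    exact leadingCoeff_ne_zero.2 hWne
  · have h1 : W.reverse.eval 1 = W.eval 1 := by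
      have : Invertible (1 : ℤ) := invertibleOne
      have h2 := eval₂_reverse_mul_pow (RingHom.id ℤ) (1 : ℤ) W
      rw [invOf_one, one_pow, mul_one, eval₂_id, eval₂_id] at h2
      exact h2
    rw [h1]
    exact hW1
  · have hfin : Finite (ClassGroup (AdjoinRoot f)) := H13.TA.clf h.monic
    exact Nat.card_pos.ne'
  · intro x hx h0
    have hqr : (0 : ℝ) < (Nat.card F : ℝ) := by
      have : 0 < Nat.card F := by omega
      exact_mod_cast this
    have hx0 : 0 < x := lt_of_lt_of_le hqr hx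
    have h1 := hrev ℝ (x⁻¹) (inv_ne_zero hx0.ne')
    rw [inv_inv] at h1
    have h2 : eval₂ (Int.castRingHom ℝ) x W.reverse = 0 := h0
    rw [h2, zero_mul] at h1
    have h3 := hW2 x⁻¹ (by positivity) (inv_anti₀ hqr hx)
    have h5 : aeval x⁻¹ W = eval₂ (Int.castRingHom ℝ) x⁻¹ W := rfl
    rw [h5, ← h1] at h3
    exact lt_irrefl _ h3
  · intro r hr
    rw [H13.TA.pts h.monic hr]
    have h1 := H13.TA.formB (Nat.card F) 1 hq one_ne_zero (H13.TA.an f)
      (fun r => ∑ d ∈ r.divisors, d * H13.TA.pn f d) ha0 (fun n => H13.TA.recB h.monic n) W hW hr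
    rw [if_pos (one_dvd r), Nat.cast_one, one_mul] at h1
    exact h1

end H13.CB
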