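import Pool.Agent.H13.CB.Defs

/-!
# CB-WL: weights of polynomials

`wl_add`: coefficients, `natDegree_add_le`. `wl_mul`: the coefficient `k` of `g h` is `∑_(i + j = k) g_i h_j`
(`coeff_mul`); each nonzero summand has `a natDegree ≤ n - b i + m - b j`, so `a natDegree (coeff k) + b k ≤ n + m`
(`natDegree_sum_le_of_forall_le`). `wl_term`: `C c * X ^ k`. `psi_deg`: `psi g = ∑_i c_i(X ^ a) κ ^ i X ^ (b i)`
(`eval₂_eq_sum_range` or `sum_def`), and `c_i(X ^ a)` has degree at most `a natDegree c_i`. `psi_red`: the coefficient of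
`X ^ (a j + b i)` in `psi g` for `i < a`, `natDegree g < a`: only the pairs `(j', i')` with `a j' + b i' = a j + b i`
contribute; `a ∣ b (i - i')`, `a` prime to `b`, `|i - i'| < a`, so `i' = i` and `j' = j`.
-/

set_option autoImplicit false

open Polynomial

noncomputable section

namespace H13.CB

variable {F : Type} [Field F] {a b : ℕ}

theorem wl_mono {n n' : ℕ} (h : n ≤ n') {g : F[X][X]} (hg : WL a b n g) : WL a b n' g :=
  fun i hi => (hg i hi).trans h

theorem wl_add {n : ℕ} {g h : F[X][X]} (hg : WL a b n g) (hh : WL a b n h) : WL a b n (g + h) := by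
  intro i hi
  rw [coeff_add] at hi ⊢
  by_cases h1 : g.coeff i = 0
  · rw [h1, zero_add] at hi ⊢
    exact hh i hi
  · by_cases h2 : h.coeff i = 0
    · rw [h2, add_zero] at hi ⊢
      exact hg i hi
    · have h3 := natDegree_add_le (g.coeff i) (h.coeff i)
      have h4 := hg i h1
      have h5 := hh i h2
      rcases le_max_iff.1 h3 with h6 | h6
      · exact (Nat.add_le_add_right (Nat.mul_le_mul_left a h6) _).trans h4
      · exact (Nat.add_le_add_right (Nat.mul_le_mul_left a h6) _).trans h5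

theorem wl_neg {n : ℕ} {g : F[X][X]} (hg : WL a b n g) : WL a b n (-g) := by
  intro i hi
  rw [coeff_neg] at hi ⊢
  rw [natDegree_neg]
  exact hg i (fun h => hi (by rw [h, neg_zero]))

theorem wl_term {n k : ℕ} {c : F[X]} (h : c ≠ 0 → a * c.natDegree + b * k ≤ n) :
    WL a b n (C c * X ^ k) := by
  intro i hi
  rw [coeff_C_mul_X_pow] at hi ⊢
  split_ifs at hi ⊢ with h1
  · rw [h1]
    exact h hi
  · exact absurd rfl hi

private theorem wl_one {n m : ℕ} {g h : F[X][X]} (hg : WL a b n g) (hh : WL a b m h) {k : ℕ}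
    {x : ℕ × ℕ} (hx : x ∈ Finset.HasAntidiagonal.antidiagonal k) (h0 : g.coeff x.1 * h.coeff x.2 ≠ 0) :
    a * (g.coeff x.1 * h.coeff x.2).natDegree + b * k ≤ n + m := by
  rw [Finset.HasAntidiagonal.mem_antidiagonal] at hx
  have h1 := hg x.1 (left_ne_zero_of_mul h0)
  have h2 := hh x.2 (right_ne_zero_of_mul h0)
  rw [natDegree_mul (left_ne_zero_of_mul h0) (right_ne_zero_of_mul h0), ← hx]
  have h3 : a * ((g.coeff x.1).natDegree + (h.coeff x.2).natDegree) + b * (x.1 + x.2) =
      (a * (g.coeff x.1).natDegree + b * x.1) + (a * (h.coeff x.2).natDegree + b * x.2) := by ring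
  rw [h3]
  exact Nat.add_le_add h1 h2

theorem wl_mul {n m : ℕ} {g h : F[X][X]} (hg : WL a b n g) (hh : WL a b m h) :
    WL a b (n + m) (g * h) := by
  intro k hk
  rw [coeff_mul] at hk ⊢
  obtain ⟨x, hx, h0⟩ := Finset.exists_ne_zero_of_sum_ne_zero hk
  have hbk : b * k ≤ n + m := le_trans (Nat.le_add_left _ _) (wl_one hg hh hx h0)
  rcases Nat.eq_zero_or_pos a with ha | ha
  · rw [ha, zero_mul, zero_add]
    exact hbk
  · have h1 : (∑ x ∈ Finset.HasAntidiagonal.antidiagonal k, g.coeff x.1 * h.coeff x.2).natDegree ≤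
        (n + m - b * k) / a := by
      refine natDegree_sum_le_of_forall_le _ _ fun y hy => ?_
      by_cases hy0 : g.coeff y.1 * h.coeff y.2 = 0
      · rw [hy0, natDegree_zero]
        exact Nat.zero_le _
      · rw [Nat.le_div_iff_mul_le ha]
        have h2 := wl_one hg hh hy hy0
        rw [mul_comm]
        omega
    rw [Nat.le_div_iff_mul_le ha, mul_comm] at h1
    omega

private theorem psi_sum (κ : AlgebraicClosure F) (g : F[X][X]) : psi a b κ g =
    ∑ i ∈ Finset.range (g.natDegree + 1), ∑ j ∈ Finset.range ((g.coeff i).natDegree + 1),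
      C (algebraMap F (AlgebraicClosure F) ((g.coeff i).coeff j) * κ ^ i) * X ^ (a * j + b * i) := by
  unfold psi
  rw [coe_eval₂RingHom, eval₂_eq_sum_range]
  refine Finset.sum_congr rfl fun i _ => ?_
  rw [coe_eval₂RingHom, eval₂_eq_sum_range, Finset.sum_mul]
  refine Finset.sum_congr rfl fun j _ => ?_
  rw [RingHom.comp_apply, mul_pow, ← pow_mul, ← pow_mul, C_mul, C_pow, pow_add]
  ring

theorem psi_deg {n : ℕ} {g : F[X][X]} (hg : WL a b n g) (κ : AlgebraicClosure F) :
    (psi a b κ g).natDegree ≤ n := by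
  rw [psi_sum]
  refine natDegree_sum_le_of_forall_le _ _ fun i _ => ?_
  refine natDegree_sum_le_of_forall_le _ _ fun j hj => ?_
  by_cases h0 : g.coeff i = 0
  · rw [h0, coeff_zero, map_zero, zero_mul, C_0, zero_mul, natDegree_zero]
    exact Nat.zero_le _
  · refine (natDegree_C_mul_X_pow_le _ _).trans ?_
    have h1 := hg i h0
    rw [Finset.mem_range] at hj
    exact (Nat.add_le_add_right (Nat.mul_le_mul_left a (by omega)) _).trans h1

private theorem red_uniq (hab : a.Coprime b) (ha : a ≠ 0) {i j i' j' : ℕ} (hi : i < a)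
    (hi' : i' < a) (h : a * j + b * i = a * j' + b * i') : i' = i ∧ j' = j := by
  have h1 : b * i ≡ b * i' [MOD a] := by
    have h2 : a * j + b * i ≡ a * j' + b * i' [MOD a] := by rw [h]
    have h3 : a * j ≡ a * j' [MOD a] :=
      (Nat.modEq_zero_iff_dvd.2 (dvd_mul_right a j)).trans
        (Nat.modEq_zero_iff_dvd.2 (dvd_mul_right a j')).symm
    exact Nat.ModEq.add_left_cancel h3 h2
  have h4 : i ≡ i' [MOD a] := Nat.ModEq.cancel_left_of_coprime hab h1
  have h5 := h4.eq_of_lt_of_lt hi hi'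
  subst h5
  refine ⟨rfl, ?_⟩
  have h6 : a * j = a * j' := by omega
  exact (Nat.eq_of_mul_eq_mul_left (Nat.pos_of_ne_zero ha) h6).symm

theorem psi_red (ha : a ≠ 0) (hb : b ≠ 0) (hab : a.Coprime b) {g : F[X][X]} (hg : g.natDegree < a)
    (κ : AlgebraicClosure F) (i j : ℕ) (hi : i < a) : (psi a b κ g).coeff (a * j + b * i) =
      algebraMap F (AlgebraicClosure F) ((g.coeff i).coeff j) * κ ^ i := by
  have _ := hb
  rw [psi_sum, finsetSum_coeff]
  have h1 : ∀ i' ∈ Finset.range (g.natDegree + 1), i' ≠ i →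
      (∑ j' ∈ Finset.range ((g.coeff i').natDegree + 1),
        C (algebraMap F (AlgebraicClosure F) ((g.coeff i').coeff j') * κ ^ i') *
          X ^ (a * j' + b * i')).coeff (a * j + b * i) = 0 := by
    intro i' hi' hne
    rw [finsetSum_coeff]
    refine Finset.sum_eq_zero fun j' _ => ?_
    rw [coeff_C_mul_X_pow, if_neg]
    intro h
    rw [Finset.mem_range] at hi'
    exact hne (red_uniq hab ha hi (by omega) h).1
  by_cases hig : i ∈ Finset.range (g.natDegree + 1)
  · rw [Finset.sum_eq_single_of_mem i hig h1, finsetSum_coeff]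
    have h2 : ∀ j' ∈ Finset.range ((g.coeff i).natDegree + 1), j' ≠ j →
        (C (algebraMap F (AlgebraicClosure F) ((g.coeff i).coeff j') * κ ^ i) *
          X ^ (a * j' + b * i) : (AlgebraicClosure F)[X]).coeff (a * j + b * i) = 0 := by
      intro j' _ hne
      rw [coeff_C_mul_X_pow, if_neg]
      intro h
      exact hne (red_uniq hab ha hi hi h).2
    by_cases hjg : j ∈ Finset.range ((g.coeff i).natDegree + 1)
    · rw [Finset.sum_eq_single_of_mem j hjg h2, coeff_C_mul_X_pow, if_pos rfl]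
    · rw [Finset.sum_eq_zero fun j' hj' => h2 j' hj' (fun h => hjg (h ▸ hj'))]
      rw [Finset.mem_range, not_lt] at hjg
      rw [coeff_eq_zero_of_natDegree_lt (by omega), map_zero, zero_mul]
  · rw [Finset.sum_eq_zero fun i' hi' => h1 i' hi' (fun h => hig (h ▸ hi'))]
    rw [Finset.mem_range, not_lt] at hig
    rw [coeff_eq_zero_of_natDegree_lt (show g.natDegree < i by omega), coeff_zero, map_zero,
      zero_mul]

end H13.CB
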