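import Pool.Agent.H13.CB.Red

/-!
# CB-WT: the weight function

`κ` with `κ ^ a = -lc(f.coeff 0)` (algebraic closure, `IsAlgClosed.exists_pow_nat_eq`); `κ ≠ 0` as `lc ≠ 0` (`b ≠ 0`). For
`α ∈ O` let `r(α)` be the reduced representative (`AdjoinRoot.modByMonicHom h.monic α`, linear, of degree `< a`;
`r(mk g) = g %ₘ f`), and `W α = natDegree (psi (r α))`.
* (P) If `natDegree g < a`, then `WL (natDegree (psi g)) g`: by `psi_red` the coefficient of `X ^ (a j + b i)` in `psi g` is
  not zero for the leading coefficient `j = natDegree (g.coeff i)` (`κ ≠ 0`), so `a j + b i ≤ natDegree (psi g)`. Also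
  `psi g = 0` implies `g = 0`.
* `mul`: `α, β ≠ 0`, `A = r α`, `B = r β`, `n = W α`, `m = W β`; `WL n A`, `WL m B`, `WL (n + m) (A B)`. The coefficient of
  `X ^ (n + m)` in `psi (A B) = psi A psi B` is the product of the leading coefficients, not zero. By `red` the coefficient of
  `X ^ (n + m)` in `psi (A B %ₘ f)` is not zero, and `WL (n + m) (A B %ₘ f)`, so `natDegree (psi (A B %ₘ f)) = n + m`
  (`psi_deg`) and `A B %ₘ f = r (α β) ≠ 0`.
* `add`: `r` is additive, `natDegree_add_le`.
* `base`: `r (c) = C c` (`a ≥ 1`), `psi (C c) = c(X ^ a)`, of degree `a natDegree c`.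
* `root`: `X` has `WL b`, coefficient of `X ^ b` in `psi X` is `κ ≠ 0`; by `red` `r (root) = X %ₘ f` has `WL b` and
  coefficient `κ` at `b`.
* `zero`: by (P) `WL 0 (r α)`: `r α` has only the coefficient `i = 0` and this is a constant.
* `coef`: `r (mk g) = g` as `natDegree g < a`; (P).
-/

set_option autoImplicit false

open Polynomial

noncomputable section

namespace H13.CB

variable {F : Type} [Field F] {a b : ℕ} {f : F[X][X]}

private theorem psi_ne (h : Cab a b f) {κ : AlgebraicClosure F} (hκ : κ ≠ 0) {g : F[X][X]}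
    (hg : g.natDegree < a) : (∀ i, g.coeff i ≠ 0 →
      (psi a b κ g).coeff (a * (g.coeff i).natDegree + b * i) ≠ 0) := by
  intro i hi
  have hia : i < a := by
    by_contra h1
    exact hi (coeff_eq_zero_of_natDegree_lt (by omega))
  rw [psi_red h.ha h.hb h.cop hg κ i _ hia]
  refine mul_ne_zero ?_ (pow_ne_zero _ hκ)
  rw [Ne, map_eq_zero_iff _ (algebraMap F (AlgebraicClosure F)).injective]
  exact leadingCoeff_ne_zero.2 hi

private theorem psi_wl (h : Cab a b f) {κ : AlgebraicClosure F} (hκ : κ ≠ 0) {g : F[X][X]}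
    (hg : g.natDegree < a) : WL a b (psi a b κ g).natDegree g := fun i hi =>
  le_natDegree_of_ne_zero (psi_ne h hκ hg i hi)

private theorem psi_ne0 (h : Cab a b f) {κ : AlgebraicClosure F} (hκ : κ ≠ 0) {g : F[X][X]}
    (hg : g.natDegree < a) (hg0 : g ≠ 0) : psi a b κ g ≠ 0 := by
  intro h1
  have h2 := psi_ne h hκ hg g.natDegree (leadingCoeff_ne_zero.2 hg0)
  rw [h1, coeff_zero] at h2
  exact h2 rfl

private theorem psi_C (κ : AlgebraicClosure F) (ha : a ≠ 0) (c : F[X]) :
    (psi a b κ (C c)).natDegree = a * c.natDegree := by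
  have h1 : psi a b κ (C c) = (c.map (algebraMap F (AlgebraicClosure F))).comp (X ^ a) := by
    unfold psi
    rw [coe_eval₂RingHom, eval₂_C, coe_eval₂RingHom, comp, eval₂_map]
  rw [h1, natDegree_comp, natDegree_X_pow, natDegree_map, mul_comm]

private theorem psi_X (κ : AlgebraicClosure F) : psi a b κ X = C κ * X ^ b := by
  unfold psi
  rw [coe_eval₂RingHom, eval₂_X]

theorem weight (h : Cab a b f) : ∃ W : AdjoinRoot f → ℕ, IsW a b f W := by
  obtain ⟨κ, hκ⟩ := IsAlgClosed.exists_pow_nat_eq
    (-algebraMap F (AlgebraicClosure F) (f.coeff 0).leadingCoeff) (Nat.pos_of_ne_zero h.ha)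
  have hκ0 : κ ≠ 0 := by
    intro h1
    rw [h1, zero_pow h.ha, eq_comm, neg_eq_zero,
      map_eq_zero_iff _ (algebraMap F (AlgebraicClosure F)).injective, leadingCoeff_eq_zero] at hκ
    have h2 := h.deg0
    rw [hκ, natDegree_zero] at h2
    exact h.hb h2.symm
  obtain ⟨r, hrd⟩ : ∃ r : AdjoinRoot f → F[X][X],
    r = fun α => AdjoinRoot.modByMonicHom h.monic α := ⟨_, rfl⟩
  have hmk : ∀ g, r (AdjoinRoot.mk f g) = g %ₘ f := fun g => by
    rw [hrd]
    exact AdjoinRoot.modByMonicHom_mk h.monic g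
  have hrmk : ∀ α, AdjoinRoot.mk f (r α) = α := fun α => by
    rw [hrd]
    exact AdjoinRoot.mk_leftInverse h.monic α
  have hf1 : f ≠ 1 := by
    intro h1
    have h2 := h.deg
    rw [h1, natDegree_one] at h2
    exact h.ha h2.symm
  have hlt : ∀ g : F[X][X], (g %ₘ f).natDegree < a := fun g => by
    have := natDegree_modByMonic_lt g h.monic hf1
    rwa [h.deg] at this
  have hrdeg : ∀ α, (r α).natDegree < a := fun α => by
    have h1 := hlt (r α)
    rw [← hmk, hrmk] at h1
    exact h1
  have hself : ∀ g : F[X][X], g.natDegree < a → g %ₘ f = g := fun g hg => by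
    rw [modByMonic_eq_self_iff h.monic]
    exact degree_lt_degree (by rwa [h.deg])
  have hr0 : ∀ α, α ≠ 0 → r α ≠ 0 := fun α hα h1 => hα (by rw [← hrmk α, h1, map_zero])
  refine ⟨fun α => (psi a b κ (r α)).natDegree, ?_, ?_, ?_, ?_, ?_, ?_⟩
  · intro α β hα hβ
    have h1 := psi_wl h hκ0 (hrdeg α)
    have h2 := psi_wl h hκ0 (hrdeg β)
    obtain ⟨h3, h4⟩ := red h hκ (wl_mul h1 h2)
    rw [map_mul, coeff_mul_degree_add_degree] at h4
    have h5 : (psi a b κ (r α)).leadingCoeff * (psi a b κ (r β)).leadingCoeff ≠ 0 :=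
      mul_ne_zero (leadingCoeff_ne_zero.2 (psi_ne0 h hκ0 (hrdeg α) (hr0 α hα)))
        (leadingCoeff_ne_zero.2 (psi_ne0 h hκ0 (hrdeg β) (hr0 β hβ)))
    have h6 : r (α * β) = (r α * r β) %ₘ f := by
      rw [← hmk, map_mul, hrmk, hrmk]
    have h7 : (psi a b κ ((r α * r β) %ₘ f)).natDegree =
        (psi a b κ (r α)).natDegree + (psi a b κ (r β)).natDegree := by
      refine le_antisymm (psi_deg h3 κ) (le_natDegree_of_ne_zero ?_)
      rw [h4]
      exact h5
    constructor
    · intro h8
      rw [h8] at h6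
      have h9 : r 0 = 0 := by
        have := hmk 0
        rw [map_zero, zero_modByMonic] at this
        exact this
      rw [h9] at h6
      rw [← h6, map_zero, coeff_zero] at h4
      exact h5 h4.symm
    · change (psi a b κ (r (α * β))).natDegree = _
      rw [h6, h7]
  · intro α β
    have h1 : r (α + β) = r α + r β := by
      rw [hrd]
      exact map_add _ α β
    change (psi a b κ (r (α + β))).natDegree ≤ _
    rw [h1, map_add]
    exact natDegree_add_le _ _
  · intro c
    have h1 : r (algebraMap F[X] (AdjoinRoot f) c) = C c := by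
      have h2 : algebraMap F[X] (AdjoinRoot f) c = AdjoinRoot.mk f (C c) := rfl
      rw [h2, hmk]
      refine hself _ ?_
      rw [natDegree_C]
      exact Nat.pos_of_ne_zero h.ha
    change (psi a b κ (r _)).natDegree = _
    rw [h1]
    exact psi_C κ h.ha c
  · change (psi a b κ (r (AdjoinRoot.root f))).natDegree = b
    have h1 : r (AdjoinRoot.root f) = X %ₘ f := hmk X
    have h2 : WL a b b (X : F[X][X]) := by
      intro i hi
      rw [coeff_X] at hi ⊢
      split_ifs at hi ⊢ with h3
      · rw [← h3, natDegree_one]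
        omega
      · exact absurd rfl hi
    obtain ⟨h3, h4⟩ := red h hκ h2
    rw [h1]
    refine le_antisymm (psi_deg h3 κ) (le_natDegree_of_ne_zero ?_)
    rw [h4, psi_X, coeff_C_mul, coeff_X_pow, if_pos rfl, mul_one]
    exact hκ0
  · intro α hα
    have h1 := psi_wl h hκ0 (hrdeg α)
    have h0 : (psi a b κ (r α)).natDegree = 0 := hα
    rw [h0] at h1
    have h2 : r α = C ((r α).coeff 0) := by
      refine Polynomial.ext fun i => ?_
      rw [coeff_C]
      split_ifs with h3
      · rw [h3]
      · by_contra h4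
        have h5 := h1 i h4
        have h6 : 0 < b * i := Nat.mul_pos (Nat.pos_of_ne_zero h.hb) (Nat.pos_of_ne_zero h3)
        omega
    have h3 : ((r α).coeff 0).natDegree = 0 := by
      by_cases h4 : (r α).coeff 0 = 0
      · rw [h4, natDegree_zero]
      · have h5 := h1 0 h4
        have h6 : a * ((r α).coeff 0).natDegree = 0 := by omega
        rcases Nat.mul_eq_zero.1 h6 with h7 | h7
        · exact absurd h7 h.ha
        · exact h7
    obtain ⟨c, hc⟩ := natDegree_eq_zero.1 h3
    refine ⟨c, ?_⟩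
    rw [← hrmk α, h2, ← hc]
    rfl
  · intro g hg i hi
    change _ ≤ (psi a b κ (r (AdjoinRoot.mk f g))).natDegree
    rw [hmk, hself g hg]
    exact psi_wl h hκ0 hg i hi

end H13.CB
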